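import Mathlib
import Pool.Agent.W79.MS.Defs

/-! MS-ORI -/

set_option autoImplicit false

namespace Pool.Agent.W683.MS

open scoped Classical
open Pool.Agent.W79.MS

theorem und_adj {V : Type} (L : Finset (V × V)) (u v : V) :
    (und L).Adj u v ↔ u ≠ v ∧ ((u, v) ∈ L ∨ (v, u) ∈ L) := SimpleGraph.fromRel_adj _ _ _

theorem sub {V : Type} {L L' L0 : Finset (V × V)} (h : Ori L) (h1 : und L = und L0)
    (h1' : und L' = und L0) (h2 : ∀ p ∈ L0, p ∈ L ↔ p ∈ L') : L ⊆ L' := by
  rintro ⟨u, v⟩ hL
  have hne : u ≠ v := by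
    rintro rfl
    exact h.1 u hL
  have hadj : (und L).Adj u v := (und_adj L u v).mpr ⟨hne, Or.inl hL⟩
  have hadj0 := hadj
  rw [h1, und_adj] at hadj0
  rcases hadj0.2 with h3 | h3
  · exact (h2 _ h3).mp hL
  · have h4 : (v, u) ∉ L' := by
      intro h5
      exact h.2 u v hL ((h2 _ h3).mpr h5)
    have h5 : (und L').Adj u v := by rw [h1', ← h1]; exact hadj
    rw [und_adj] at h5
    rcases h5.2 with h6 | h6
    · exact h6
    · exact absurd h6 h4

theorem main : S_ORI := by
  intro c P hP n
  set A : Finset (Finset (Fin n × Fin n)) :=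
    Finset.univ.filter (fun L => Ori L ∧ L.card ≤ 3 * n ∧ und L ∈ P n) with hA
  have hset : ({L | Ori L ∧ L.card ≤ 3 * n ∧ und L ∈ P n} : Set (Finset (Fin n × Fin n))) = ↑A := by
    ext L
    simp [hA]
  rw [hset, Set.ncard_coe_finset]
  have h1 : A.card ≤ 8 ^ n * (A.image und).card := by
    apply Finset.card_le_mul_card_image
    intro G hG
    obtain ⟨L0, hL0, rfl⟩ := Finset.mem_image.mp hG
    have hL0' := (Finset.mem_filter.mp hL0).2
    have h2 : (A.filter (fun L => und L = und L0)).card ≤ (L0.powerset).card := by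
      apply Finset.card_le_card_of_injOn (fun L => L ∩ L0)
      · intro L _
        exact Finset.mem_coe.mpr (Finset.mem_powerset.mpr Finset.inter_subset_right)
      · intro L hL L' hL' hLL
        have a1 := Finset.mem_filter.mp (Finset.mem_coe.mp hL)
        have a2 := Finset.mem_filter.mp (Finset.mem_coe.mp hL')
        have b1 := (Finset.mem_filter.mp a1.1).2.1
        have b2 := (Finset.mem_filter.mp a2.1).2.1
        have h3 : ∀ p ∈ L0, p ∈ L ↔ p ∈ L' := by
          intro p hp
          have h4 := Finset.ext_iff.mp hLL p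
          simp only [Finset.mem_inter, hp, and_true] at h4
          exact h4
        exact Finset.Subset.antisymm (sub b1 a1.2 a2.2 h3)
          (sub b2 a2.2 a1.2 fun p hp => (h3 p hp).symm)
    refine h2.trans ?_
    rw [Finset.card_powerset]
    calc 2 ^ L0.card ≤ 2 ^ (3 * n) := Nat.pow_le_pow_right (by norm_num) hL0'.2.1
      _ = 8 ^ n := by rw [pow_mul]; norm_num
  have h2 : (A.image und).card ≤ (P n).ncard := by
    rw [← Set.ncard_coe_finset]
    apply Set.ncard_le_ncard _ (Set.toFinite _)
    intro G hG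
    obtain ⟨L, hL, rfl⟩ := Finset.mem_image.mp (Finset.mem_coe.mp hG)
    exact (Finset.mem_filter.mp hL).2.2.2
  exact h1.trans (Nat.mul_le_mul_left _ (h2.trans (hP n)))

end Pool.Agent.W683.MS
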